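import Mathlib
import Pool.Agent.Helper977.L1Semi.AP9

/-!
There is no analytic semigroup in the convolution algebra `L¹(ℝ)` that is bounded on the
half disc `0 < |t| ≤ 1`, `Re t > 0`.
-/

set_option autoImplicit false

open MeasureTheory

namespace Pool.Agent.Results.MP_8f84d8_an.NoBoundedAnalyticSemigroup

/-- An analytic semigroup in the convolution algebra `L¹(ℝ)` of complex integrable functions:
a map from the open right half plane to `L¹(ℝ)` that is holomorphic, turns addition into
convolution, and is not identically zero. -/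
structure IsAnalyticSemigroup (a : ℂ → Lp ℂ 1 (volume : Measure ℝ)) : Prop where
  /-- `t ↦ a t` is holomorphic on the open right half plane. -/
  holomorphic : DifferentiableOn ℂ a {t : ℂ | 0 < t.re}
  /-- `a (s + t)` is the convolution of `a s` and `a t`. -/
  semigroup : ∀ s t : ℂ, 0 < s.re → 0 < t.re →
    (a (s + t) : ℝ → ℂ) =ᵐ[volume] fun x => ∫ y, (a s : ℝ → ℂ) (x - y) * (a t : ℝ → ℂ) y
  /-- The semigroup is not identically zero. -/
  nonzero : ∃ t : ℂ, 0 < t.re ∧ a t ≠ 0

/-- `L¹(ℝ)` does not possess an analytic semigroup that is bounded on the half disc. -/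
theorem result : ¬ ∃ a : ℂ → Lp ℂ 1 (volume : Measure ℝ), IsAnalyticSemigroup a ∧
    ∃ C : ℝ, ∀ t : ℂ, 0 < t.re → ‖t‖ ≤ 1 → ‖a t‖ ≤ C := by
  rintro ⟨a, ha, C, hC⟩
  obtain ⟨t, ht, hat⟩ := ha.nonzero
  exact Pool.Agent.Helper977.L1Semi.main a ha.holomorphic (fun s t hs ht => ha.semigroup s t hs ht)
    ⟨t, ht, hat⟩ (C := C) (fun t ht h1 => hC t ht h1)

end Pool.Agent.Results.MP_8f84d8_an.NoBoundedAnalyticSemigroup
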